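import Pool.Agent.Lib.MP_65a179_nt.Free.Five

/-!
# A set without five-term geometric progressions and with almost logarithmic gaps
-/

namespace Pool.Agent.Results.MP_65a179_nt.FiveFree

/-- There is a set `S` of positive integers that contains no five-term geometric progression with
rational ratio `r ≠ 1` and such that every integer `x ≥ 3` is followed by an element of `S` within
distance `A log x exp (16 √(log log x))`. -/
theorem result : ∃ S : Set ℕ, (∀ n ∈ S, 0 < n) ∧
    (∀ a ∈ S, ∀ b ∈ S, ∀ c ∈ S, ∀ d ∈ S, ∀ e ∈ S, ∀ r : ℚ, (b : ℚ) = r * a → (c : ℚ) = r * b →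
      (d : ℚ) = r * c → (e : ℚ) = r * d → r = 1) ∧
    ∃ A : ℝ, ∀ x : ℕ, 3 ≤ x → ∃ t ∈ S, x < t ∧
      (t : ℝ) - x ≤ A * Real.log x * Real.exp (16 * √(Real.log (Real.log x))) :=
  Pool.Agent.Lib.MP_65a179_nt.Free.main5

end Pool.Agent.Results.MP_65a179_nt.FiveFree
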