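import Pool.Agent.Lib.MP_65a179_nt.Main

/-!
# Almost sure gap bound for the 6-GP-free process
-/

namespace Pool.Agent.Results.MP_65a179_nt.GapBound

open MeasureTheory ProbabilityTheory Pool.Agent.Lib.MP_65a179_nt

/-- For independent fair coins indexed by the nontrivial 6-term geometric progressions, almost
surely, for every `ε > 0` there is `C` such that every integer `x ≥ 3` is followed by a surviving
integer within distance `C exp ((log 3 / 3 + ε) log x / log log x)`. -/
theorem result {Ω : Type} [MeasurableSpace Ω] (P : Measure Ω) (X : GP6 → Ω → Bool)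
    (hmeas : ∀ G, Measurable (X G)) (hind : iIndepFun X P)
    (hfair : ∀ G s, P (X G ⁻¹' {s}) = 1 / 2) :
    ∀ᵐ ω ∂P, ∀ ε : ℝ, 0 < ε → ∃ C : ℝ, 0 < C ∧ ∀ x : ℕ, 3 ≤ x →
      ∃ t ∈ survivors (fun G => X G ω), x < t ∧
        (t : ℝ) - x < C * Real.exp ((Real.log 3 / 3 + ε) * Real.log x / Real.log (Real.log x)) :=
  main hmeas hind hfair

end Pool.Agent.Results.MP_65a179_nt.GapBound
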