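import Pool.Agent.Lib.MP_65a179_nt.Free.Adic

/-!
# Gaps below every power of the logarithm without three-term geometric progressions of ratio
away from one
-/

namespace Pool.Agent.Results.MP_65a179_nt.LargeRatio

/-- There is a set `S` of positive integers in which every three-term geometric progression
`a, b, c` with rational ratio `r` has `(r - 1) log c < 1`, and such that every integer `x ≥ 3` is
followed by an element of `S` within distance `A exp (14 √(log log x))`. -/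
theorem result : ∃ S : Set ℕ, (∀ n ∈ S, 0 < n) ∧
    (∀ a ∈ S, ∀ b ∈ S, ∀ c ∈ S, ∀ r : ℚ, (b : ℚ) = r * a → (c : ℚ) = r * b →
      ((r : ℝ) - 1) * Real.log c < 1) ∧
    ∃ A : ℝ, ∀ x : ℕ, 3 ≤ x → ∃ t ∈ S, x < t ∧
      (t : ℝ) - x ≤ A * Real.exp (14 * √(Real.log (Real.log x))) :=
  Pool.Agent.Lib.MP_65a179_nt.Free.maina

/-- The case of integer ratios: `S` contains no `a, a r, a r ^ 2` with an integer `r ≥ 2`. -/
theorem integer_ratio : ∃ S : Set ℕ, (∀ n ∈ S, 0 < n) ∧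
    (∀ a r : ℕ, 2 ≤ r → ¬(a ∈ S ∧ a * r ∈ S ∧ a * r ^ 2 ∈ S)) ∧
    ∃ A : ℝ, ∀ x : ℕ, 3 ≤ x → ∃ t ∈ S, x < t ∧
      (t : ℝ) - x ≤ A * Real.exp (14 * √(Real.log (Real.log x))) := by
  obtain ⟨S, h0, h1, h2⟩ := result
  refine ⟨S, h0, fun a r hr ⟨ha, hb, hc⟩ => ?_, h2⟩
  have h3 := h1 a ha _ hb _ hc r (by push_cast; ring) (by push_cast; ring)
  have h4 : 3 ≤ a * r ^ 2 := by nlinarith [h0 a ha]
  have h5 : 1 ≤ Real.log (a * r ^ 2 : ℕ) := by
    rw [Real.le_log_iff_exp_le (by positivity)]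
    exact Real.exp_one_lt_three.le.trans (by exact_mod_cast h4)
  have h6 : (2 : ℝ) ≤ r := by exact_mod_cast hr
  rw [Rat.cast_natCast] at h3
  nlinarith

/-- The earlier form, with gaps `A log x exp (13 √(log log x))`, follows. -/
theorem with_log : ∃ S : Set ℕ, (∀ n ∈ S, 0 < n) ∧
    (∀ a ∈ S, ∀ b ∈ S, ∀ c ∈ S, ∀ r : ℚ, (b : ℚ) = r * a → (c : ℚ) = r * b →
      ((r : ℝ) - 1) * Real.log c < 1) ∧
    ∃ A : ℝ, ∀ x : ℕ, 3 ≤ x → ∃ t ∈ S, x < t ∧
      (t : ℝ) - x ≤ A * Real.log x * Real.exp (13 * √(Real.log (Real.log x))) := by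
  obtain ⟨S, h0, h1, A, h2⟩ := result
  refine ⟨S, h0, h1, |A| * Real.exp 1, fun x hx => ?_⟩
  obtain ⟨t, ht, ht1, ht2⟩ := h2 x hx
  refine ⟨t, ht, ht1, ht2.trans ?_⟩
  have hl1 : 1 ≤ Real.log x := by
    rw [Real.le_log_iff_exp_le (by positivity)]
    exact Real.exp_one_lt_three.le.trans (by exact_mod_cast hx)
  have h3 := Real.sq_sqrt (Real.log_nonneg hl1)
  have h4 := Real.exp_log (show 0 < Real.log x by linarith)
  generalize √(Real.log (Real.log x)) = s at h3 ⊢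
  rw [← h3] at h4
  rw [← h4, mul_assoc, mul_assoc, ← Real.exp_add, ← Real.exp_add]
  exact mul_le_mul (le_abs_self A) (Real.exp_le_exp.2 (by nlinarith [sq_nonneg (s - 1)]))
    (Real.exp_pos _).le (abs_nonneg A)

end Pool.Agent.Results.MP_65a179_nt.LargeRatio
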