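import Pool.Agent.Lib.MP_65a179_nt.Free.Main

/-!
# A set without three-term geometric progressions and with polylogarithmic gaps
-/

namespace Pool.Agent.Results.MP_65a179_nt.ThreeFree

/-- There is a set `S` of positive integers that contains no three-term geometric progression with
rational ratio `r ≠ 1` and such that, for every `ε > 0`, every integer `x ≥ 3` is followed by an
element of `S` within distance `A (log x) ^ (3 + ε)`. -/
theorem result : ∃ S : Set ℕ, (∀ n ∈ S, 0 < n) ∧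
    (∀ a ∈ S, ∀ b ∈ S, ∀ c ∈ S, ∀ r : ℚ, (b : ℚ) = r * a → (c : ℚ) = r * b → r = 1) ∧
    ∀ ε : ℝ, 0 < ε → ∃ A : ℝ, ∀ x : ℕ, 3 ≤ x →
      ∃ t ∈ S, x < t ∧ (t : ℝ) - x ≤ A * Real.log x ^ (3 + ε) :=
  Pool.Agent.Lib.MP_65a179_nt.Free.main

end Pool.Agent.Results.MP_65a179_nt.ThreeFree
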